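import Pool.Agent.Q78.WI.Stm

/-!
Project WI (helper78), lemma jobs E5p and E5b.
-/

set_option autoImplicit false

open MeasureTheory ProbabilityTheory Filter Topology Set
open scoped NNReal InnerProductSpace Matrix

namespace Pool.Agent.Q217.WI

open Pool.Agent.Q78.WI

universe u v

theorem e5p : S_E5p := by
  intro d h hh
  set C : ℝ := ∑ i, ∑ j, |h i j| with hC
  have hC0 : 0 ≤ C := Finset.sum_nonneg fun i _ => Finset.sum_nonneg fun j _ => abs_nonneg _
  refine ⟨1 / (C + 1), by positivity, fun t ht => ?_⟩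
  apply Matrix.PosDef.of_dotProduct_mulVec_pos
  · apply Matrix.IsHermitian.add Matrix.isHermitian_one
    unfold Matrix.IsHermitian
    rw [Matrix.conjTranspose_smul, hh.eq, star_trivial]
  · intro x hx
    rw [star_trivial, Matrix.add_mulVec, Matrix.one_mulVec, Matrix.smul_mulVec, dotProduct_add,
      dotProduct_smul, smul_eq_mul]
    have hN : 0 < x ⬝ᵥ x := by
      have h1 : 0 ≤ x ⬝ᵥ x := Finset.sum_nonneg fun i _ => mul_self_nonneg _
      rcases h1.lt_or_eq with h1 | h1
      · exact h1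
      · exact absurd (dotProduct_self_eq_zero.1 h1.symm) hx
    have hxi : ∀ i, x i * x i ≤ x ⬝ᵥ x := fun i =>
      Finset.single_le_sum (f := fun i => x i * x i) (fun j _ => mul_self_nonneg _)
        (Finset.mem_univ i)
    have hq : |x ⬝ᵥ h *ᵥ x| ≤ C * (x ⬝ᵥ x) := by
      have h1 : x ⬝ᵥ h *ᵥ x = ∑ i, ∑ j, x i * (h i j * x j) := by
        simp only [dotProduct, Matrix.mulVec, Finset.mul_sum]
      rw [h1, hC, Finset.sum_mul]
      refine (Finset.abs_sum_le_sum_abs _ _).trans (Finset.sum_le_sum fun i _ => ?_)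
      rw [Finset.sum_mul]
      refine (Finset.abs_sum_le_sum_abs _ _).trans (Finset.sum_le_sum fun j _ => ?_)
      have h2 : |x i * (h i j * x j)| = |h i j| * (|x i| * |x j|) := by
        rw [abs_mul, abs_mul]; ring
      rw [h2]
      refine mul_le_mul_of_nonneg_left ?_ (abs_nonneg _)
      have h3 := hxi i
      have h4 := hxi j
      rw [← abs_mul_abs_self (x i)] at h3
      rw [← abs_mul_abs_self (x j)] at h4
      nlinarith [sq_nonneg (|x i| - |x j|)]
    have ht2 : |t * (x ⬝ᵥ h *ᵥ x)| < x ⬝ᵥ x := by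
      rw [abs_mul]
      calc |t| * |x ⬝ᵥ h *ᵥ x| ≤ (1 / (C + 1)) * (C * (x ⬝ᵥ x)) :=
            mul_le_mul ht hq (abs_nonneg _) (by positivity)
        _ < x ⬝ᵥ x := by
            rw [div_mul_eq_mul_div, one_mul, div_lt_iff₀ (by positivity)]
            nlinarith
    have := neg_abs_le (t * (x ⬝ᵥ h *ᵥ x))
    linarith

open scoped MatrixOrder in
theorem exists_factor {d : ℕ} {A : Matrix (Fin d) (Fin d) ℝ} (hA : A.PosSemidef) :
    ∃ B : Matrix (Fin d) (Fin d) ℝ, A = Bᴴ * B :=
  CStarAlgebra.nonneg_iff_eq_star_mul_self.mp hA.nonneg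

/-- the trace of a product of positive semidefinite matrices -/
theorem trace_nonneg' {d : ℕ} {A M : Matrix (Fin d) (Fin d) ℝ} (hA : A.PosSemidef)
    (hM : M.PosSemidef) : 0 ≤ (A * M).trace := by
  obtain ⟨B, hB⟩ := exists_factor hA
  rw [hB, Matrix.mul_assoc, Matrix.trace_mul_comm]
  exact (hM.mul_mul_conjTranspose_same B).trace_nonneg

theorem e5b : S_E5b.{v} := by
  intro Ω _ P _ α d M N hW h t hpd n
  have hmeasT : Measurable fun ω => (M ω).trace := by
    simp only [Matrix.trace, Matrix.diag_apply]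
    exact Finset.measurable_sum _ fun i _ => hW.measM i i
  have hmeasH : Measurable fun ω => (h * M ω).trace := by
    simp only [Matrix.trace, Matrix.diag_apply, Matrix.mul_apply]
    exact Finset.measurable_sum _ fun i _ => Finset.measurable_sum _ fun j _ =>
      (hW.measM j i).const_mul _
  have hmeas : Measurable fun ω => Real.exp (-(t * Yn h (M ω) n)) * wt α (M ω) n := by
    unfold Yn wt
    exact (((hmeasH.const_mul _).const_mul _).neg.exp).mul
      ((hmeasT.const_mul _).neg.exp.const_mul _)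
  refine Integrable.of_bound hmeas.aestronglyMeasurable ((n : ℝ) ^ ((d : ℝ) * α / 2))
    (Eventually.of_forall fun ω => ?_)
  have h1 : 0 ≤ ((1 + t • h) * M ω).trace := trace_nonneg' hpd.posSemidef (hW.posM ω)
  rw [Matrix.add_mul, Matrix.one_mul, Matrix.trace_add, Matrix.smul_mul, Matrix.trace_smul,
    smul_eq_mul] at h1
  have h0 : (0 : ℝ) ≤ (n : ℝ) ^ ((d : ℝ) * α / 2) := Real.rpow_nonneg (Nat.cast_nonneg n) _
  have h2 : Real.exp (-(t * Yn h (M ω) n)) * wt α (M ω) n =
      (n : ℝ) ^ ((d : ℝ) * α / 2) *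
        Real.exp (-((n : ℝ) * ((M ω).trace + t * (h * M ω).trace))) := by
    unfold Yn wt
    rw [mul_left_comm, ← Real.exp_add]
    congr 2
    ring
  rw [h2, Real.norm_eq_abs, abs_of_nonneg (mul_nonneg h0 (Real.exp_pos _).le)]
  apply mul_le_of_le_one_right h0
  apply Real.exp_le_one_iff.2
  have : 0 ≤ (n : ℝ) * ((M ω).trace + t * (h * M ω).trace) :=
    mul_nonneg (Nat.cast_nonneg n) h1
  linarith

end Pool.Agent.Q217.WI
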